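import Pool.Agent.H75.SH.Stm

/-!
# CREW SH, part BV: the term `q = 1` of the relative Bombieri-Vinogradov theorem
-/

set_option autoImplicit false

open Finset

namespace H41.SH

open Pool.Agent.H378R2 (Phi EPhi yy z2 PW WW GoodS GoodP)
open Pool.Agent.H75.SH (S_BV)
open Pool.Agent.H75.AS (bmax bmax_spec)

theorem t_BV : S_BV := by
  classical
  intro A Z
  obtain ⟨X0, h⟩ := Pool.Agent.H378R2.bvrel_holds A Z
  refine ⟨max X0 1, fun X hX => ?_⟩
  have hX0 : X0 ≤ X := (le_max_left _ _).trans hX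
  have hX1 : 1 ≤ X := (le_max_right _ _).trans hX
  obtain ⟨ps, S, hps, hS, hBV⟩ := h X hX0
  refine ⟨ps, S, hps, hS, fun a ha => ?_⟩
  have hW0 : 0 < WW X S ps := Pool.Agent.H378R2.WW_pos _ _ _
  have h1 := hBV (fun q => if q = 1 then a else bmax X (WW X S ps * q)) (by
    intro q hq
    beta_reduce
    split_ifs with h
    · rw [h, mul_one]
      exact ha
    · exact (bmax_spec X (WW X S ps * q) (Nat.mul_pos hW0 hq)).1)
  have hmem : 1 ∈ (Icc 1 ⌊X ^ (1 / 100 : ℝ)⌋₊).filter
      (fun q => Squarefree q ∧ q.Coprime (WW X S ps * ps)) := by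
    rw [mem_filter, mem_Icc]
    refine ⟨⟨le_refl 1, Nat.le_floor ?_⟩, squarefree_one, Nat.coprime_one_left _⟩
    push_cast
    exact Real.one_le_rpow hX1 (by norm_num)
  have h2 := single_le_sum (f := fun q : ℕ => (q.divisors.card : ℝ) ^ A *
    |EPhi X (WW X S ps * q) (if q = 1 then a else bmax X (WW X S ps * q))|)
    (fun q _ => by positivity) hmem
  have h3 : ((1 : ℕ).divisors.card : ℝ) ^ A *
      |EPhi X (WW X S ps * 1) (if (1 : ℕ) = 1 then a else bmax X (WW X S ps * 1))| =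
      |EPhi X (WW X S ps) a| := by
    rw [if_pos rfl, mul_one, Nat.divisors_one, card_singleton, Nat.cast_one, one_pow, one_mul]
  calc |EPhi X (WW X S ps) a| = _ := h3.symm
    _ ≤ _ := h2
    _ ≤ _ := h1

end H41.SH
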